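import Pool.Agent.Run7.h699.SPM.Transfer
import Pool.Agent.V11244.CohCore

/-! # Strongly proper forcings without atoms destroy winning strategies in the Menger game -/

namespace Pool.Agent.Results.MP_18f314_lc.MengerStrategiesDestroyed

open Pool.Agent.Helper669.Forcing
open Pool.Agent.V11244.CohGame
open Pool.Agent.Run7.h699.SPM

universe u v

theorem atomless_coh : Atomless Pool.Agent.V11244.CohCore.Coh := by
  intro p
  refine ⟨List.append (α := Bool) p [true], List.prefix_append (α := Bool) _ _,
    List.append (α := Bool) p [false], List.prefix_append (α := Bool) _ _, fun s hs hs' => ?_⟩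
  have h1 : List.append (α := Bool) p [true] = List.append (α := Bool) p [false] := by
    have h2 := List.prefix_of_prefix_length_le (α := Bool) hs hs' (by simp)
    exact h2.eq_of_length (by simp)
  simp at h1

/-- There are strongly proper forcings without atoms. Let `P` be one. (1) If a closed subspace of
the space `X` maps continuously onto the Cantor space, then all conditions force that II has no
winning strategy in the Menger game on `X` with the ground model topology as a base. (2) If `X` is
metrizable and sigma-compact, then II has a winning strategy in the Menger game on `X`; all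
conditions force that this is still so if `X` is countable, and all conditions force that II has no
winning strategy any more if `X` is uncountable. -/
theorem result :
    (∃ (P : Type) (_ : Preorder P), StronglyProper P ∧ Atomless P) ∧
    ∀ (P : Type u) [Preorder P], StronglyProper P → Atomless P →
      (∀ (X : Type v) [TopologicalSpace X] (K : Set X) (f : K → ℕ → Bool), IsClosed K →
        Continuous f → Function.Surjective f →
          ∀ p : P, p ∈ fnot (fIIWinsFin (P := P) (X := X) fOpenCover fOpenCover)) ∧
      ∀ (X : Type v) [TopologicalSpace X] [TopologicalSpace.MetrizableSpace X]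
        [SigmaCompactSpace X],
        IIWinsFin (OpenCovers X) (OpenCovers X) ∧
        (Countable X → ∀ p : P, p ∈ fIIWinsFin (P := P) (X := X) fOpenCover fOpenCover) ∧
        (¬ Countable X →
          ∀ p : P, p ∈ fnot (fIIWinsFin (P := P) (X := X) fOpenCover fOpenCover)) := by
  refine ⟨⟨Pool.Agent.V11244.CohCore.Coh, inferInstance, stronglyProper_of_countable,
    atomless_coh⟩, fun P _ hP ha => ⟨fun X _ K f hK hf hs p => no_menger hP ha hK hf hs p,
    fun X _ _ _ => ⟨wins_of_sigmaCompact, fun _ p => wins_countable p, fun h p => ?_⟩⟩⟩
  obtain ⟨K, f, hK, hf, hs⟩ := exists_cantor h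
  exact no_menger hP ha hK hf hs p

end Pool.Agent.Results.MP_18f314_lc.MengerStrategiesDestroyed
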